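import Pool.Agent.Work.MP_bbfbdc_al.Final

/-!
# Spherical growth of the first Grigorchuk group

`sphGrowth m` is the number of elements of word length exactly `m` (with respect to the
generators `a, b, c, d`) of the first Grigorchuk group, realised as a group of permutations of the
vertices of the rooted binary tree (`List Bool`).  All definitions are in
`Pool/Agent/Work/MP_bbfbdc_al/Defs.lean`.

Idea of the proof: sphere sizes are submultiplicative, so if one sphere of radius `k` has at most
`exp (k ^ α)` elements then `γ(n) ≤ (n+1) exp (n k ^ (α-1)) γ(k)` for all `n`.  Together with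
`exp (c sqrt n) ≤ γ(n)` (for large `n`) and `γ(n) ≤ exp (K (W n + 1) ^ β)`, `β < 1`, and the choice
`n = k ^ (2 θ)` with `β < θ < 1 - α`, this is impossible for large `k`.
-/

namespace Pool.Agent.Results.MP_bbfbdc_al.SphericalGrowth

open Pool.Agent.Work.MP_bbfbdc_al Filter

/-- There is a positive integer `C` such that for all natural numbers `n` and `m` with
`C * n ≤ m`, the sphere of radius `m` in the first Grigorchuk group has at least
`exp (n ^ (23/100))` elements.  (Taking `m = C * n`, this says that `exp (n ^ α)` is dominated by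
the spherical growth function for `α = 23/100`.) -/
theorem result : ∃ C : ℕ, 0 < C ∧ ∀ n m : ℕ, C * n ≤ m →
    Real.exp ((n : ℝ) ^ (23 / 100 : ℝ)) ≤ (sphGrowth m : ℝ) := by
  obtain ⟨N, hN⟩ := eventually_atTop.mp sph_eventually
  refine ⟨N + 1, Nat.succ_pos _, fun n m hnm => ?_⟩
  rcases Nat.eq_zero_or_pos n with rfl | hn
  · have h1 := sph_pos m
    have h2 : ((0 : ℕ) : ℝ) ^ (23 / 100 : ℝ) = 0 := by
      rw [Nat.cast_zero]; exact Real.zero_rpow (by norm_num)
    rw [h2, Real.exp_zero]
    exact_mod_cast h1
  · have h3 : (N + 1) * 1 ≤ (N + 1) * n := Nat.mul_le_mul_left _ hn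
    refine le_trans ?_ (hN m (by omega))
    apply Real.exp_le_exp.mpr
    refine Real.rpow_le_rpow (Nat.cast_nonneg _) ?_ (by norm_num)
    have h4 : n ≤ m := le_trans (Nat.le_mul_of_pos_left n (Nat.succ_pos N)) hnm
    exact_mod_cast h4

end Pool.Agent.Results.MP_bbfbdc_al.SphericalGrowth
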